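import Mathlib
import Pool.Agent.Helper77.SK.Final2
import Pool.Agent.Helper77.SK.UFinal

/-!
# The exponential complexities of `k`-SAT and unique `k`-SAT differ by `O(1 / k)`, and by a factor
`1 + O(1 / k)` as long as they are bounded away from zero
-/

set_option autoImplicit false

namespace Pool.Agent.Results.MP_622bb4_lc.ExponentComparison

open Pool.Agent.Helper77.SK

/-- There is a constant `C` such that for all `k ≥ 3` and all odd `m ≤ k` some algorithm solves
`k`-SAT with `O(2 ^ n)` steps, and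
`0 ≤ σ_k ≤ s_k ≤ min (σ_k + 1.54 / m) (σ_k * (1 + C * (1 + |log σ_k|) ^ 2 / k))`
(with `log 0 = 0`, so that `σ_k = 0` gives `s_k = 0`). -/
theorem result :
    ∃ C : ℝ, ∀ k m : ℕ, 3 ≤ k → Odd m → m ≤ k →
      SolvedIn k False 1 ∧ 0 ≤ sigma k ∧ sigma k ≤ s k ∧
      s k ≤ min (sigma k + 1.54 / m)
        (sigma k * (1 + C * (1 + |Real.log (sigma k)|) ^ 2 / k)) := by
  obtain ⟨C, hC⟩ := comparison
  refine ⟨C, fun k m hk hm hmk => ⟨solvedIn_one k, sigma_nonneg k, sigma_le_s k,
    le_min ?_ (hC k hk)⟩⟩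
  have h := comparison_U hm hmk
  have e : (1.54 : ℝ) = 154 / 100 := by norm_num
  rw [e]
  exact h

end Pool.Agent.Results.MP_622bb4_lc.ExponentComparison
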