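import Mathlib
import Pool.Agent.Helper38.ISO.Cnf
import Pool.Agent.Helper38.ISO.CubeCnf
import Pool.Agent.Helper77.SK.UBar

/-!
# Oblivious isolation by `k`-CNFs has optimal success probability `2 ^ (-Θ(n / k))`, also with `o(n)`
new variables
-/

set_option autoImplicit false

namespace Pool.Agent.Results.MP_622bb4_lc.OptimalIsolation

open Finset Pool.Agent.Helper38.ISO

open Classical in
/-- (1) For all `n ≥ 1` and odd `m` there is a finite nonempty family of `m`-CNFs on `n` variables
such that, for every nonempty set `S` of assignments, a uniformly random member of the family is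
satisfied by exactly one element of `S` with probability at least
`exp (-(π ^ 2 / 6) * (n / m + 2)) / (n + 1)`.

(2) For all `k ≥ 1` and all `n`, `a`, `D` with `2 * D * k ≤ n * log 2`, and for every probability
distribution `w` on a finite family of `k`-CNFs on `n + a` variables (the `n` variables of the
instance and `a` new ones), there is a `1`-CNF `F` on the `n` variables with exactly `2 ^ D`
satisfying assignments such that, with a random member `G` of the family, the conjunction of `F` and
`G` has exactly one satisfying assignment with probability at most `2 ^ a * exp (-D)`. -/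
theorem result :
    (∀ n m : ℕ, 1 ≤ n → Odd m →
      ∃ (ι : Type) (_ : Fintype ι) (_ : Nonempty ι) (G : ι → CNF n),
        (∀ i, IsK m (G i)) ∧
        ∀ S : Set (Fin n → Bool), S.Nonempty →
          Real.exp (-(Real.pi ^ 2 / 6 * ((n : ℝ) / m + 2))) / (n + 1) * (Fintype.card ι : ℝ) ≤
            ((univ.filter fun i => Isolates (G i) S).card : ℝ)) ∧
    (∀ n k D a : ℕ, 1 ≤ k → 2 * (D : ℝ) * k ≤ n * Real.log 2 →
      ∀ (ι : Type) (_ : Fintype ι) (w : ι → ℝ) (G : ι → CNF (n + a)),
        (∀ i, 0 ≤ w i) → ∑ i, w i = 1 → (∀ i, IsK k (G i)) →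
        ∃ F : CNF n, IsK 1 F ∧ Nat.card {x : Fin n → Bool // Sat x F} = 2 ^ D ∧
          ∑ i ∈ univ.filter (fun i => ∃! z : Fin (n + a) → Bool,
            Sat (fun j => z (Fin.castAdd a j)) F ∧ Sat z (G i)), w i ≤
              2 ^ a * Real.exp (-D)) := by
  constructor
  · intro n m hn hm
    have : Nonempty (Par n m) := ⟨(fun _ => ⟨0, hn⟩, 0)⟩
    refine ⟨Fin (n + 1) × (Fin n → Par n m), inferInstance, inferInstance, fam,
      isK_fam, ?_⟩
    intro S hS
    obtain ⟨x0, hx0⟩ := hS
    set S' : Finset (Fin n → Bool) := S.toFinset with hS'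
    have hSS : (S' : Set (Fin n → Bool)) = S := by simp [hS']
    have hne : S'.Nonempty := ⟨x0, by simpa [hS'] using hx0⟩
    have h1 := isolation hn hm S' hne
    have e1 : (Fintype.card (Fin (n + 1) × (Fin n → Par n m)) : ℝ)
        = ((n : ℝ) + 1) * (Fintype.card (Par n m) : ℝ) ^ n := by
      rw [Fintype.card_prod, Fintype.card_fun, Fintype.card_fin, Fintype.card_fin]
      push_cast
      ring
    have e2 : ((univ.filter fun i : Fin (n + 1) × (Fin n → Par n m) =>
        Isolates (fam i) S).card : ℝ)
        = ∑ i : Fin (n + 1) × (Fin n → Par n m),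
          if (S'.filter fun x => Sat x (fam i)).card = 1 then (1 : ℝ) else 0 := by
      rw [Finset.sum_boole]
      congr 2
      apply Finset.filter_congr
      intro i _
      rw [← hSS]
      exact isolates_iff _ _
    rw [e2, e1]
    refine le_trans (le_of_eq ?_) h1
    field_simp
  · intro n k D a hk hD ι _ w G hw hw1 hG
    obtain ⟨M, hM, x, hle⟩ := Helper77.SK.UBar.barrier' (c := a) hk hD w G hw hw1 hG
    refine ⟨cubeCnf M x, isK_cubeCnf M x, ?_, ?_⟩
    · rw [card_cubeCnf, hM]
    · refine le_trans (le_of_eq (Finset.sum_congr ?_ fun _ _ => rfl)) hle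
      refine Finset.filter_congr fun i _ => existsUnique_congr fun z => ?_
      rw [sat_cubeCnf]

end Pool.Agent.Results.MP_622bb4_lc.OptimalIsolation
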